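import Pool.Agent.LRP.Defs
import Pool.Agent.Helper23.PlaneWave

/-!
# The integral theorem for linearly reducible families
-/

set_option autoImplicit false

namespace LRP

open MeasureTheory

variable {A : Subfield ℂ}

/-- Evaluation at a real point as a ring homomorphism. -/
noncomputable def evHom {n : ℕ} (x : Fin n → ℝ) : MvPolynomial (Fin n) A →+* ℂ :=
  ((MvPolynomial.aeval (R := A) (fun k : Fin n => ((x k : ℝ) : ℂ)) :
    MvPolynomial (Fin n) A →ₐ[A] ℂ) : MvPolynomial (Fin n) A →+* ℂ)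

theorem ev_eq {n : ℕ} (P : MvPolynomial (Fin n) A) (x : Fin n → ℝ) : ev P x = evHom x P := rfl

theorem ev_C {n : ℕ} (a : A) (x : Fin n → ℝ) : ev (MvPolynomial.C a) x = (a : ℂ) := by
  unfold ev
  rw [MvPolynomial.aeval_C]
  rfl

theorem ev_mul {n : ℕ} (P Q : MvPolynomial (Fin n) A) (x : Fin n → ℝ) :
    ev (P * Q) x = ev P x * ev Q x := by
  simp only [ev_eq, map_mul]

theorem ev_sub {n : ℕ} (P Q : MvPolynomial (Fin n) A) (x : Fin n → ℝ) :
    ev (P - Q) x = ev P x - ev Q x := by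
  simp only [ev_eq, map_sub]

theorem ev_add {n : ℕ} (P Q : MvPolynomial (Fin n) A) (x : Fin n → ℝ) :
    ev (P + Q) x = ev P x + ev Q x := by
  simp only [ev_eq, map_add]

theorem ev_neg {n : ℕ} (P : MvPolynomial (Fin n) A) (x : Fin n → ℝ) :
    ev (-P) x = -ev P x := by
  simp only [ev_eq, map_neg]

theorem ev_one {n : ℕ} (x : Fin n → ℝ) : ev (1 : MvPolynomial (Fin n) A) x = 1 := by
  simp only [ev_eq, map_one]

theorem ev_prod {n : ℕ} {ι : Type} (s : Finset ι) (f : ι → MvPolynomial (Fin n) A)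
    (x : Fin n → ℝ) : ev (∏ i ∈ s, f i) x = ∏ i ∈ s, ev (f i) x := by
  simp only [ev_eq, map_prod]

theorem ev_rename {n : ℕ} (G : MvPolynomial (Fin n) A) (x : Fin (n + 1) → ℝ) :
    ev (MvPolynomial.rename Fin.succ G) x = ev G (fun k => x k.succ) := by
  unfold ev
  rw [MvPolynomial.aeval_rename]
  rfl

theorem ev_lin {n : ℕ} (M b : MvPolynomial (Fin n) A) (x : Fin (n + 1) → ℝ) :
    ev (lin M b) x = ev M (fun k => x k.succ) * (x 0 : ℂ) + ev b (fun k => x k.succ) := by
  unfold lin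
  rw [ev_add, ev_mul, ev_rename, ev_rename]
  congr 2
  unfold ev
  rw [MvPolynomial.aeval_X]

theorem ne_of_im {m b : ℂ} {t : ℝ} (h : (m * (starRingEnd ℂ) b).im ≠ 0) : m * (t : ℂ) + b ≠ 0 := by
  intro h0
  apply h
  have hb : b = -(m * (t : ℂ)) := by linear_combination h0
  rw [hb, map_neg, map_mul, Complex.conj_ofReal]
  have : m * -((starRingEnd ℂ) m * (t : ℂ)) = -((m * (starRingEnd ℂ) m) * (t : ℂ)) := by ring
  rw [this, Complex.mul_conj, Complex.neg_im, ← Complex.ofReal_mul, Complex.ofReal_im, neg_zero]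

theorem prods_ne {n : ℕ} {S : Set (MvPolynomial (Fin n) A)}
    (hS : ∀ F ∈ S, ∀ x : Fin n → ℝ, ev F x ≠ 0) :
    ∀ D ∈ Prods S, ∀ x : Fin n → ℝ, ev D x ≠ 0 := by
  intro D hD
  unfold Prods at hD
  refine Submonoid.closure_induction (motive := fun D _ => ∀ x : Fin n → ℝ, ev D x ≠ 0) ?_ ?_ ?_ hD
  · rintro F (hF | ⟨a, ha, rfl⟩) x
    · exact hS F hF x
    · rw [ev_C]
      exact_mod_cast ha
  · intro x
    rw [ev_one]
    exact one_ne_zero
  · intro F G _ _ h1 h2 x
    rw [ev_mul]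
    exact mul_ne_zero (h1 x) (h2 x)

theorem red_ne (n : ℕ) : ∀ {S : Set (MvPolynomial (Fin n) A)}, Red n S →
    ∀ F ∈ S, ∀ x : Fin n → ℝ, ev F x ≠ 0 := by
  induction n with
  | zero =>
    intro S hS F hF x
    have h0 : F ≠ 0 := hS F hF
    rw [MvPolynomial.eq_C_of_isEmpty F] at h0 ⊢
    rw [ev_C]
    intro h
    apply h0
    have h1 : MvPolynomial.coeff 0 F = 0 := by exact_mod_cast h
    rw [h1, map_zero]
  | succ n ih =>
    intro S hS F hF x
    obtain ⟨T, hT, h1, -⟩ := hS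
    rcases h1 F hF with ⟨G, hG, rfl⟩ | ⟨M, -, b, rfl, h2⟩
    · rw [ev_rename]
      exact prods_ne (ih hT) G hG _
    · rw [ev_lin]
      apply ne_of_im
      rcases h2 with h2 | h2
      · exact (h2 _).ne'
      · exact (h2 _).ne

/-- The ring of the functions `P/D`, `D` a product of members of `T`. -/
def RatRing {n : ℕ} (T : Set (MvPolynomial (Fin n) A))
    (hT : ∀ D ∈ Prods T, ∀ x : Fin n → ℝ, ev D x ≠ 0) : Subring ((Fin n → ℝ) → ℂ) where
  carrier := {f | ∃ P : MvPolynomial (Fin n) A, ∃ D ∈ Prods T, ∀ x, f x = ev P x / ev D x}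
  mul_mem' := by
    rintro f g ⟨P, D, hD, hf⟩ ⟨Q, E, hE, hg⟩
    refine ⟨P * Q, D * E, mul_mem hD hE, fun x => ?_⟩
    rw [Pi.mul_apply, hf, hg, ev_mul, ev_mul]
    ring
  one_mem' := ⟨1, 1, one_mem _, fun x => by rw [ev_one, Pi.one_apply, div_one]⟩
  add_mem' := by
    rintro f g ⟨P, D, hD, hf⟩ ⟨Q, E, hE, hg⟩
    refine ⟨P * E + Q * D, D * E, mul_mem hD hE, fun x => ?_⟩
    have h1 := hT D hD x
    have h2 := hT E hE x
    rw [Pi.add_apply, hf, hg, ev_add, ev_mul, ev_mul, ev_mul]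
    field_simp
  zero_mem' := ⟨0, 1, one_mem _, fun x => by
    rw [ev_one, Pi.zero_apply, div_one, ev_eq, map_zero]⟩
  neg_mem' := by
    rintro f ⟨P, D, hD, hf⟩
    refine ⟨-P, D, hD, fun x => ?_⟩
    rw [Pi.neg_apply, hf, ev_neg]
    ring

theorem decomp {n : ℕ} {S : Set (MvPolynomial (Fin (n + 1)) A)}
    {T : Set (MvPolynomial (Fin n) A)}
    (h1 : ∀ F ∈ S, (∃ G ∈ Prods T, F = MvPolynomial.rename Fin.succ G) ∨
        ∃ M ∈ Prods T, ∃ b, F = lin M b ∧ (Upper M b ∨ Lower M b))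
    {D : MvPolynomial (Fin (n + 1)) A} (hD : D ∈ Prods S) :
    ∃ (E : MvPolynomial (Fin n) A) (U L : Type) (_ : Fintype U) (_ : Fintype L)
      (Mu bu : U → MvPolynomial (Fin n) A) (Ml bl : L → MvPolynomial (Fin n) A),
      E ∈ Prods T ∧
      (∀ u, Mu u ∈ Prods T ∧ Upper (Mu u) (bu u) ∧ lin (Mu u) (bu u) ∈ S) ∧
      (∀ l, Ml l ∈ Prods T ∧ Lower (Ml l) (bl l) ∧ lin (Ml l) (bl l) ∈ S) ∧
      D = MvPolynomial.rename Fin.succ E * (∏ u, lin (Mu u) (bu u)) * ∏ l, lin (Ml l) (bl l) := by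
  unfold Prods at hD
  refine Submonoid.closure_induction (motive := fun D _ =>
    ∃ (E : MvPolynomial (Fin n) A) (U L : Type) (_ : Fintype U) (_ : Fintype L)
      (Mu bu : U → MvPolynomial (Fin n) A) (Ml bl : L → MvPolynomial (Fin n) A),
      E ∈ Prods T ∧
      (∀ u, Mu u ∈ Prods T ∧ Upper (Mu u) (bu u) ∧ lin (Mu u) (bu u) ∈ S) ∧
      (∀ l, Ml l ∈ Prods T ∧ Lower (Ml l) (bl l) ∧ lin (Ml l) (bl l) ∈ S) ∧
      D = MvPolynomial.rename Fin.succ E * (∏ u, lin (Mu u) (bu u)) *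
        ∏ l, lin (Ml l) (bl l)) ?_ ?_ ?_ hD
  · rintro F (hF | ⟨a, ha, rfl⟩)
    · rcases h1 F hF with ⟨G, hG, rfl⟩ | ⟨M, hM, b, rfl, hs | hs⟩
      · refine ⟨G, Fin 0, Fin 0, inferInstance, inferInstance, Fin.elim0, Fin.elim0, Fin.elim0,
          Fin.elim0, hG, fun u => u.elim0, fun u => u.elim0, ?_⟩
        simp
      · refine ⟨1, Unit, Fin 0, inferInstance, inferInstance, fun _ => M, fun _ => b, Fin.elim0,
          Fin.elim0, one_mem _, fun _ => ⟨hM, hs, hF⟩, fun u => u.elim0, ?_⟩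
        simp
      · refine ⟨1, Fin 0, Unit, inferInstance, inferInstance, Fin.elim0, Fin.elim0, fun _ => M,
          fun _ => b, one_mem _, fun u => u.elim0, fun _ => ⟨hM, hs, hF⟩, ?_⟩
        simp
    · refine ⟨MvPolynomial.C a, Fin 0, Fin 0, inferInstance, inferInstance, Fin.elim0, Fin.elim0,
        Fin.elim0, Fin.elim0, Submonoid.subset_closure (Or.inr ⟨a, ha, rfl⟩), fun u => u.elim0,
        fun u => u.elim0, ?_⟩
      simp
  · refine ⟨1, Fin 0, Fin 0, inferInstance, inferInstance, Fin.elim0, Fin.elim0, Fin.elim0,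
      Fin.elim0, one_mem _, fun u => u.elim0, fun u => u.elim0, ?_⟩
    simp
  · rintro F G _ _ ⟨E, U, L, _, _, Mu, bu, Ml, bl, hE, hu, hl, rfl⟩
      ⟨E', U', L', _, _, Mu', bu', Ml', bl', hE', hu', hl', rfl⟩
    refine ⟨E * E', U ⊕ U', L ⊕ L', inferInstance, inferInstance, Sum.elim Mu Mu',
      Sum.elim bu bu', Sum.elim Ml Ml', Sum.elim bl bl', mul_mem hE hE', ?_, ?_, ?_⟩
    · rintro (u | u)
      · exact hu u
      · exact hu' u
    · rintro (l | l)
      · exact hl l
      · exact hl' l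
    · rw [Fintype.prod_sum_type, Fintype.prod_sum_type, map_mul]
      simp only [Sum.elim_inl, Sum.elim_inr]
      ring

theorem main (A : Subfield ℂ) (hI : Complex.I ∈ A) (n : ℕ) (S : Set (MvPolynomial (Fin n) A))
    (hS : Red n S) (P D : MvPolynomial (Fin n) A) (hD : D ∈ Prods S)
    (hint : Integrable (fun x : Fin n → ℝ => ev P x / ev D x)) :
    ∃ a ∈ A, ∫ x, ev P x / ev D x = a * (Real.pi : ℂ) ^ n := by
  classical
  induction n with
  | zero =>
    refine ⟨((MvPolynomial.coeff 0 P : A) : ℂ) / ((MvPolynomial.coeff 0 D : A) : ℂ),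
      A.div_mem (Subtype.coe_prop _) (Subtype.coe_prop _), ?_⟩
    have h0 : ∀ x : Fin 0 → ℝ, ev P x / ev D x =
        ((MvPolynomial.coeff 0 P : A) : ℂ) / ((MvPolynomial.coeff 0 D : A) : ℂ) := by
      intro x
      conv_lhs => rw [MvPolynomial.eq_C_of_isEmpty P, MvPolynomial.eq_C_of_isEmpty D]
      rw [ev_C, ev_C]
    simp_rw [h0]
    have hv : (volume : Measure (Fin 0 → ℝ)) = Measure.dirac isEmptyElim :=
      Measure.pi_of_empty _ _
    rw [hv, integral_dirac]
    simp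
  | succ n ih =>
    obtain ⟨hF1, hF2, hF3⟩ := Pool.Agent.Helper23.PlaneWave.fubini_cons _ hint
    obtain ⟨T, hT, h1, h2⟩ := hS
    obtain ⟨E, U, L, _, _, Mu, bu, Ml, bl, hE, hu, hl, rfl⟩ := decomp h1 hD
    have hne : ∀ D ∈ Prods T, ∀ x : Fin n → ℝ, ev D x ≠ 0 := prods_ne (red_ne n hT)
    let R := RatRing T hne
    let toR : MvPolynomial (Fin n) A →+* R :=
      { toFun := fun Q => ⟨fun x => ev Q x, Q, 1, one_mem _, fun x => by rw [ev_one, div_one]⟩
        map_one' := by apply Subtype.ext; funext x; exact ev_one x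
        map_mul' := fun Q Q' => by apply Subtype.ext; funext x; exact ev_mul Q Q' x
        map_zero' := by
          apply Subtype.ext; funext x
          show ev (0 : MvPolynomial (Fin n) A) x = 0
          rw [ev_eq, map_zero]
        map_add' := fun Q Q' => by apply Subtype.ext; funext x; exact ev_add Q Q' x }
    let φ : (Fin n → ℝ) → R →+* ℂ := fun x => (Pi.evalRingHom (fun _ => ℂ) x).comp R.subtype
    have hφR : ∀ x (Q : MvPolynomial (Fin n) A), φ x (toR Q) = ev Q x := fun x Q => rfl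
    have hφc : ∀ x, (φ x).comp toR = evHom x := fun x => RingHom.ext fun Q => rfl
    let α : U → R := fun u => ⟨fun x => ev (-(bu u)) x / ev (Mu u) x, -(bu u), Mu u, (hu u).1,
      fun x => rfl⟩
    let β : L → R := fun l => ⟨fun x => ev (-(bl l)) x / ev (Ml l) x, -(bl l), Ml l, (hl l).1,
      fun x => rfl⟩
    have hα : ∀ x u, φ x (α u) = -ev (bu u) x / ev (Mu u) x := fun x u => by
      show ev (-(bu u)) x / ev (Mu u) x = _
      rw [ev_neg]
    have hβ : ∀ x l, φ x (β l) = -ev (bl l) x / ev (Ml l) x := fun x l => by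
      show ev (-(bl l)) x / ev (Ml l) x = _
      rw [ev_neg]
    have him : ∀ m b : ℂ, m ≠ 0 → (-b / m).im = (m * (starRingEnd ℂ) b).im / Complex.normSq m := by
      intro m b hm
      rw [div_eq_mul_inv, Complex.inv_def, ← mul_assoc, Complex.im_mul_ofReal, ← div_eq_mul_inv]
      congr 1
      simp only [Complex.mul_im, Complex.conj_re, Complex.conj_im, Complex.neg_re, Complex.neg_im]
      ring
    have hαim : ∀ x u, 0 < (φ x (α u)).im := fun x u => by
      rw [hα, him _ _ (hne _ (hu u).1 x)]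
      exact div_pos ((hu u).2.1 x) (Complex.normSq_pos.mpr (hne _ (hu u).1 x))
    have hβim : ∀ x l, (φ x (β l)).im < 0 := fun x l => by
      rw [hβ, him _ _ (hne _ (hl l).1 x)]
      exact div_neg_of_neg_of_pos ((hl l).2.1 x) (Complex.normSq_pos.mpr (hne _ (hl l).1 x))
    obtain ⟨G, hG⟩ := Pool.Agent.Helper23.PlaneWave.slice α β
      ((MvPolynomial.finSuccEquiv A n P).map toR)
    let K : MvPolynomial (Fin n) A := E * (∏ u, Mu u) * ∏ l, Ml l
    have hK : K ∈ Prods T := mul_mem (mul_mem hE (prod_mem fun u _ => (hu u).1))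
      (prod_mem fun l _ => (hl l).1)
    have hf : ∀ (x : Fin n → ℝ) (t : ℝ),
        ev P (Fin.cons t x) / ev (MvPolynomial.rename Fin.succ E * (∏ u, lin (Mu u) (bu u)) *
          ∏ l, lin (Ml l) (bl l)) (Fin.cons t x) =
        (ev K x)⁻¹ * ((((MvPolynomial.finSuccEquiv A n P).map toR).map (φ x)).eval (t : ℂ) /
          ((∏ u, ((t : ℂ) - φ x (α u))) * ∏ l, ((t : ℂ) - φ x (β l)))) := by
      intro x t
      have e1 : ev P (Fin.cons t x) =
          (((MvPolynomial.finSuccEquiv A n P).map toR).map (φ x)).eval (t : ℂ) := by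
        rw [Polynomial.map_map, hφc]
        exact Pool.Agent.Helper23.PlaneWave.eval_finSucc P t x
      have e2 : ev (MvPolynomial.rename Fin.succ E * (∏ u, lin (Mu u) (bu u)) *
          ∏ l, lin (Ml l) (bl l)) (Fin.cons t x) =
          ev K x * ((∏ u, ((t : ℂ) - φ x (α u))) * ∏ l, ((t : ℂ) - φ x (β l))) := by
        rw [ev_mul, ev_mul, ev_prod, ev_prod, ev_rename]
        simp only [ev_lin, Fin.cons_succ, Fin.cons_zero]
        have e3 : ∏ u, (ev (Mu u) x * (t : ℂ) + ev (bu u) x) =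
            (∏ u, ev (Mu u) x) * ∏ u, ((t : ℂ) - φ x (α u)) := by
          rw [← Finset.prod_mul_distrib]
          apply Finset.prod_congr rfl
          intro u _
          have := hne _ (hu u).1 x
          rw [hα]
          field_simp
          ring
        have e4 : ∏ l, (ev (Ml l) x * (t : ℂ) + ev (bl l) x) =
            (∏ l, ev (Ml l) x) * ∏ l, ((t : ℂ) - φ x (β l)) := by
          rw [← Finset.prod_mul_distrib]
          apply Finset.prod_congr rfl
          intro l _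
          have := hne _ (hl l).1 x
          rw [hβ]
          field_simp
          ring
        have e5 : ev K x = ev E x * (∏ u, ev (Mu u) x) * ∏ l, ev (Ml l) x := by
          simp only [K, ev_mul, ev_prod]
        rw [e3, e4, e5]
        ring
      rw [e1, e2, div_eq_mul_inv, mul_inv, div_eq_mul_inv]
      ring
    -- the slice function is in the ring
    have hg : ∃ P' : MvPolynomial (Fin n) A, ∃ D' ∈ Prods T, ∀ x, (ev K x)⁻¹ * (Complex.I * φ x G /
        ∏ u, ∏ l, (φ x (α u) - φ x (β l))) = ev P' x / ev D' x := by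
      have hmem : (fun x : Fin n → ℝ => (ev K x)⁻¹ * (Complex.I * φ x G /
          ∏ u, ∏ l, (φ x (α u) - φ x (β l)))) ∈ R := by
        have m1 : (fun x : Fin n → ℝ => (ev K x)⁻¹) ∈ R :=
          ⟨1, K, hK, fun x => by rw [ev_one, one_div]⟩
        have m2 : (fun _ : Fin n → ℝ => Complex.I) ∈ R :=
          ⟨MvPolynomial.C ⟨Complex.I, hI⟩, 1, one_mem _, fun x => by rw [ev_C, ev_one, div_one]⟩
        have m3 : (fun x : Fin n → ℝ => φ x G) ∈ R := G.2
        have m4 : ∀ u l, (fun x : Fin n → ℝ => (φ x (α u) - φ x (β l))⁻¹) ∈ R := by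
          intro u l
          refine ⟨Mu u * Ml l, Mu u * bl l - Ml l * bu u,
            h2 _ _ _ _ (hu u).2.2 (hl l).2.2 (hu u).2.1 (hl l).2.1, fun x => ?_⟩
          have n1 := hne _ (hu u).1 x
          have n2 := hne _ (hl l).1 x
          change (φ x (α u) - φ x (β l))⁻¹ = _
          rw [hα, hβ, ev_sub, ev_mul, ev_mul, ev_mul]
          rw [show -ev (bu u) x / ev (Mu u) x - -ev (bl l) x / ev (Ml l) x =
            (ev (Mu u) x * ev (bl l) x - ev (Ml l) x * ev (bu u) x) /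
              (ev (Mu u) x * ev (Ml l) x) by field_simp; ring, inv_div]
        have m5 : (∏ u, ∏ l, (fun x : Fin n → ℝ => (φ x (α u) - φ x (β l))⁻¹)) ∈ R :=
          prod_mem fun u _ => prod_mem fun l _ => m4 u l
        have m6 := mul_mem (mul_mem m1 (mul_mem m2 m3)) m5
        convert m6 using 1
        funext x
        simp only [Pi.mul_apply, Finset.prod_apply, Finset.prod_inv_distrib]
        rw [div_eq_mul_inv]
        ring
      exact hmem
    obtain ⟨P', D', hD', hg'⟩ := hg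
    have hslice : ∀ᵐ x : Fin n → ℝ, ∫ t : ℝ,
        ev P (Fin.cons t x) / ev (MvPolynomial.rename Fin.succ E * (∏ u, lin (Mu u) (bu u)) *
          ∏ l, lin (Ml l) (bl l)) (Fin.cons t x) = (Real.pi : ℂ) * (ev P' x / ev D' x) := by
      filter_upwards [hF1] with x hx
      rw [← hg']
      simp_rw [hf] at hx ⊢
      have hK0 : (ev K x)⁻¹ ≠ 0 := inv_ne_zero (hne _ hK x)
      rw [integrable_const_mul_iff (isUnit_iff_ne_zero.mpr hK0)] at hx
      rw [integral_const_mul, hG (φ x) (hαim x) (hβim x) hx]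
      ring
    have hpi : (Real.pi : ℂ) ≠ 0 := by exact_mod_cast Real.pi_ne_zero
    have hint' : Integrable (fun x : Fin n → ℝ => ev P' x / ev D' x) := by
      have h3 := hF2.congr hslice
      rwa [integrable_const_mul_iff (isUnit_iff_ne_zero.mpr hpi)] at h3
    obtain ⟨a, ha, ha'⟩ := ih T hT P' D' hD' hint'
    refine ⟨a, ha, ?_⟩
    rw [hF3, integral_congr_ae hslice, integral_const_mul, ha']
    ring

end LRP
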