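import Mathlib

/-!
# Linearly reducible families and their integrals over the whole space (MP_725b61_nt)
-/

set_option autoImplicit false

namespace LRP

open MeasureTheory

/-- The value of a polynomial with coefficients in a subfield of `ℂ` at a real point. -/
noncomputable def ev {A : Subfield ℂ} {n : ℕ} (P : MvPolynomial (Fin n) A) (x : Fin n → ℝ) : ℂ :=
  MvPolynomial.aeval (fun k => (x k : ℂ)) P

/-- Products of members of `S` and nonzero constants. -/
noncomputable def Prods {A : Subfield ℂ} {n : ℕ} (S : Set (MvPolynomial (Fin n) A)) :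
    Submonoid (MvPolynomial (Fin n) A) :=
  Submonoid.closure (S ∪ {F | ∃ a : A, a ≠ 0 ∧ F = MvPolynomial.C a})

/-- `M(x_1, .., x_n) x_0 + b(x_1, .., x_n)`. -/
noncomputable def lin {A : Subfield ℂ} {n : ℕ} (M b : MvPolynomial (Fin n) A) :
    MvPolynomial (Fin (n + 1)) A :=
  MvPolynomial.rename Fin.succ M * MvPolynomial.X 0 + MvPolynomial.rename Fin.succ b

/-- For every real point `x` the root `-b(x)/M(x)` of `M(x) t + b(x)` has positive imaginary
part. -/
def Upper {A : Subfield ℂ} {n : ℕ} (M b : MvPolynomial (Fin n) A) : Prop :=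
  ∀ x : Fin n → ℝ, 0 < (ev M x * (starRingEnd ℂ) (ev b x)).im

/-- For every real point `x` the root `-b(x)/M(x)` of `M(x) t + b(x)` has negative imaginary
part. -/
def Lower {A : Subfield ℂ} {n : ℕ} (M b : MvPolynomial (Fin n) A) : Prop :=
  ∀ x : Fin n → ℝ, (ev M x * (starRingEnd ℂ) (ev b x)).im < 0

/-- Linearly reducible families of polynomials without real zeros. -/
def Red {A : Subfield ℂ} : (n : ℕ) → Set (MvPolynomial (Fin n) A) → Prop
  | 0, S => ∀ F ∈ S, F ≠ 0
  | n + 1, S => ∃ T : Set (MvPolynomial (Fin n) A), Red n T ∧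
      (∀ F ∈ S, (∃ G ∈ Prods T, F = MvPolynomial.rename Fin.succ G) ∨
        ∃ M ∈ Prods T, ∃ b, F = lin M b ∧ (Upper M b ∨ Lower M b)) ∧
      ∀ M b M' b', lin M b ∈ S → lin M' b' ∈ S → Upper M b → Lower M' b' →
        M * b' - M' * b ∈ Prods T

/-- The algebraic numbers. -/
noncomputable abbrev QB : Subfield ℂ := (algebraicClosure ℚ ℂ).toSubfield

/-- The linear polynomials `t - z`, `z` algebraic and not real, `t` the last of `n + 1`
variables. -/
def LastLin (n : ℕ) : Set (MvPolynomial (Fin (n + 1)) QB) :=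
  {F | ∃ z : QB, (z : ℂ).im ≠ 0 ∧ F = MvPolynomial.X (Fin.last n) - MvPolynomial.C z}

/-- `c . x + b(t)`: the variables are `x_0, .., x_(n-1)` and `t = x_n`. -/
noncomputable def curveForm {n : ℕ} (c : Fin n → QB) (b : Polynomial QB) :
    MvPolynomial (Fin (n + 1)) QB :=
  ∑ k : Fin n, MvPolynomial.C (c k) * MvPolynomial.X k.castSucc +
    Polynomial.aeval (MvPolynomial.X (Fin.last n)) b

/-- The polynomials `c . x + b(t)` with `c` a real algebraic vector and `b` a polynomial with
algebraic coefficients whose imaginary part has no real zero, and the polynomials `b(t)` without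
real zero. -/
def CurveFam (n : ℕ) : Set (MvPolynomial (Fin (n + 1)) QB) :=
  {F | ∃ (c : Fin n → QB) (b : Polynomial QB), (∀ k, (c k : ℂ).im = 0) ∧
    ((∀ t : ℝ, (Polynomial.aeval (t : ℂ) b).im ≠ 0) ∨
      ((∀ k, c k = 0) ∧ ∀ t : ℝ, Polynomial.aeval (t : ℂ) b ≠ 0)) ∧ F = curveForm c b}

/-- Two variables `x_0` and `t = x_1`: the polynomials `M(t) x_0 + b(t)` whose root `-b(t)/M(t)`
is never real (and `M` has no real zero). -/
def TwoFam : Set (MvPolynomial (Fin 2) QB) :=
  {F | ∃ M b : MvPolynomial (Fin 1) QB, F = lin M b ∧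
    ∀ x : Fin 1 → ℝ, (ev M x * (starRingEnd ℂ) (ev b x)).im ≠ 0}

/-- `v` is the absolutely convergent integral over `R^n` of a quotient `P/D`, `D` a product of
members of a linearly reducible family. -/
def IsLRPeriodOf (n : ℕ) (v : ℂ) : Prop :=
  ∃ S : Set (MvPolynomial (Fin n) QB), Red n S ∧ ∃ P : MvPolynomial (Fin n) QB, ∃ D ∈ Prods S,
    Integrable (fun x : Fin n → ℝ => ev P x / ev D x) ∧ v = ∫ x, ev P x / ev D x

end LRP
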