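import Pool.Agent.LRP.Defs

/-!
# One variable polynomials without real zeros are products of linear polynomials
-/

set_option autoImplicit false

open Polynomial

namespace LRP

instance isAlgClosed_QB : IsAlgClosed QB :=
  (algebraicClosure.isAlgClosure ℚ ℂ).isAlgClosed

theorem fac (n : ℕ) (b : Polynomial QB) (hb : ∀ t : ℝ, Polynomial.aeval (t : ℂ) b ≠ 0) :
    (Polynomial.aeval (MvPolynomial.X (Fin.last n)) b : MvPolynomial (Fin (n + 1)) QB) ∈
      Prods (LastLin n) := by
  have hb0 : b ≠ 0 := by
    rintro rfl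
    exact hb 0 (by simp)
  have hspl : b.Splits := IsAlgClosed.splits b
  have hroot : ∀ z ∈ b.roots, (z : ℂ).im ≠ 0 := by
    intro z hz him
    have h1 : b.eval z = 0 := ((Polynomial.mem_roots hb0).1 hz)
    have h2 : Polynomial.aeval (z : ℂ) b = 0 := by
      have h3 : Polynomial.aeval (algebraMap QB ℂ z) b = algebraMap QB ℂ (b.eval z) := by
        rw [Polynomial.aeval_algebraMap_apply]
        simp
      have h4 : (algebraMap QB ℂ z) = (z : ℂ) := rfl
      rw [← h4, h3, h1, map_zero]
    have h5 : (z : ℂ) = (((z : ℂ).re : ℝ) : ℂ) := by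
      apply Complex.ext
      · simp
      · simpa using him
    exact hb (z : ℂ).re (by rw [← h5]; exact h2)
  have hprod := hspl.eq_prod_roots
  rw [hprod]
  rw [map_mul, Polynomial.aeval_C, map_multiset_prod, Multiset.map_map]
  refine (Prods (LastLin n)).mul_mem ?_ ?_
  · refine Submonoid.subset_closure (Or.inr ⟨b.leadingCoeff, ?_, rfl⟩)
    exact Polynomial.leadingCoeff_ne_zero.2 hb0
  · refine (Prods (LastLin n)).multiset_prod_mem _ ?_
    intro F hF
    rw [Multiset.mem_map] at hF
    obtain ⟨z, hz, rfl⟩ := hF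
    refine Submonoid.subset_closure (Or.inl ⟨z, hroot z hz, ?_⟩)
    simp only [Function.comp_apply, map_sub, Polynomial.aeval_X, Polynomial.aeval_C]
    rfl

end LRP
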