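import Mathlib
import Pool.Agent.LRP.Defs
import Pool.Agent.LRP.Fac

/-!
# Linear forms over a polynomial curve are linearly reducible
-/

set_option autoImplicit false

namespace LRP

open MvPolynomial

theorem cv_lin_inj {A : Subfield ℂ} {n : ℕ} {M b M' b' : MvPolynomial (Fin n) A}
    (h : lin M b = lin M' b') : M = M' ∧ b = b' := by
  have key : ∀ (a : MvPolynomial (Fin n) A) (M b : MvPolynomial (Fin n) A),
      MvPolynomial.aeval (Fin.cons a X : Fin (n + 1) → MvPolynomial (Fin n) A) (lin M b)
        = M * a + b := by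
    intro a M b
    have h2 : ∀ p : MvPolynomial (Fin n) A,
        MvPolynomial.aeval (Fin.cons a X : Fin (n + 1) → MvPolynomial (Fin n) A)
          (MvPolynomial.rename Fin.succ p) = p := by
      intro p
      rw [MvPolynomial.aeval_rename]
      have h3 : (Fin.cons a X : Fin (n + 1) → MvPolynomial (Fin n) A) ∘ Fin.succ = X := by
        funext k
        simp
      rw [h3]
      simp
    unfold lin
    rw [map_add, map_mul, h2, h2]
    simp
  have h0 := congrArg (MvPolynomial.aeval
    (Fin.cons 0 X : Fin (n + 1) → MvPolynomial (Fin n) A)) h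
  have h1 := congrArg (MvPolynomial.aeval
    (Fin.cons 1 X : Fin (n + 1) → MvPolynomial (Fin n) A)) h
  rw [key, key] at h0 h1
  simp only [mul_zero, zero_add, mul_one] at h0 h1
  rw [h0] at h1
  exact ⟨add_right_cancel h1, h0⟩

/-- The value of `c . x + b(t)`. -/
theorem ev_curveForm {n : ℕ} (c : Fin n → QB) (b : Polynomial QB) (x : Fin (n + 1) → ℝ) :
    ev (curveForm c b) x = ∑ k : Fin n, (c k : ℂ) * (x k.castSucc : ℂ)
      + Polynomial.aeval ((x (Fin.last n) : ℝ) : ℂ) b := by
  unfold ev curveForm
  rw [map_add, map_sum]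
  congr 1
  · refine Finset.sum_congr rfl fun k _ => ?_
    rw [map_mul, MvPolynomial.aeval_C, MvPolynomial.aeval_X]
    rfl
  · rw [← Polynomial.aeval_algHom_apply, MvPolynomial.aeval_X]

theorem im_ev_curveForm {n : ℕ} (c : Fin n → QB) (hc : ∀ k, (c k : ℂ).im = 0)
    (b : Polynomial QB) (x : Fin (n + 1) → ℝ) :
    (ev (curveForm c b) x).im = (Polynomial.aeval ((x (Fin.last n) : ℝ) : ℂ) b).im := by
  rw [ev_curveForm, Complex.add_im, Complex.im_sum]
  have : ∀ k ∈ (Finset.univ : Finset (Fin n)),
      ((c k : ℂ) * (x k.castSucc : ℂ)).im = 0 := by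
    intro k _
    rw [Complex.mul_im, hc k, Complex.ofReal_im]
    ring
  rw [Finset.sum_eq_zero this, zero_add]

/-- The first variable of `c . x + b(t)`. -/
theorem curveForm_succ {n : ℕ} (c : Fin (n + 1) → QB) (b : Polynomial QB) :
    curveForm c b = lin (C (c 0)) (curveForm (fun k => c k.succ) b) := by
  unfold curveForm lin
  rw [Fin.sum_univ_succ]
  simp only [map_add, map_sum, map_mul, MvPolynomial.rename_C, MvPolynomial.rename_X,
    Fin.castSucc_zero, Fin.succ_castSucc]
  rw [← Polynomial.aeval_algHom_apply, MvPolynomial.rename_X, Fin.succ_last]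
  ring

/-- Constant sign of the imaginary part. -/
theorem im_sign (b : Polynomial QB) (hb : ∀ t : ℝ, (Polynomial.aeval (t : ℂ) b).im ≠ 0) :
    (∀ t : ℝ, 0 < (Polynomial.aeval (t : ℂ) b).im) ∨
      ∀ t : ℝ, (Polynomial.aeval (t : ℂ) b).im < 0 := by
  have hcont : Continuous fun t : ℝ => (Polynomial.aeval (t : ℂ) b).im := by
    have h1 : Continuous fun z : ℂ => Polynomial.aeval z b := Polynomial.continuous_aeval b
    exact Complex.continuous_im.comp (h1.comp Complex.continuous_ofReal)
  by_contra hcon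
  push Not at hcon
  obtain ⟨⟨s, hs⟩, ⟨t, ht⟩⟩ := hcon
  have h0 : (0 : ℝ) ∈ Set.range fun t : ℝ => (Polynomial.aeval (t : ℂ) b).im := by
    have := mem_range_of_exists_le_of_exists_ge hcont ⟨s, hs⟩ ⟨t, ht⟩
    exact this
  obtain ⟨u, hu⟩ := h0
  exact hb u hu

/-- The family used in the proof. -/
def CS (n : ℕ) : Set (MvPolynomial (Fin (n + 1)) QB) :=
  LastLin n ∪ {F | ∃ (c : Fin n → QB) (b : Polynomial QB), (∀ k, (c k : ℂ).im = 0) ∧
    (∃ k, c k ≠ 0) ∧ (∀ t : ℝ, (Polynomial.aeval (t : ℂ) b).im ≠ 0) ∧ F = curveForm c b}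

theorem prods_mono {A : Subfield ℂ} {n : ℕ} {S T : Set (MvPolynomial (Fin n) A)} (h : S ⊆ T) :
    Prods S ≤ Prods T :=
  Submonoid.closure_mono (Set.union_subset_union_left _ h)

theorem mem_prods {A : Subfield ℂ} {n : ℕ} {S : Set (MvPolynomial (Fin n) A)}
    {F : MvPolynomial (Fin n) A} (h : F ∈ S) : F ∈ Prods S :=
  Submonoid.subset_closure (Or.inl h)

theorem C_mem_prods {A : Subfield ℂ} {n : ℕ} {S : Set (MvPolynomial (Fin n) A)}
    {a : A} (h : a ≠ 0) : C a ∈ Prods S :=
  Submonoid.subset_closure (Or.inr ⟨a, h, rfl⟩)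

theorem curveForm_zero {n : ℕ} (c : Fin n → QB) (hc : ∀ k, c k = 0) (b : Polynomial QB) :
    curveForm c b = Polynomial.aeval (X (Fin.last n)) b := by
  unfold curveForm
  rw [Finset.sum_eq_zero, zero_add]
  intro k _
  rw [hc k, map_zero, zero_mul]

theorem im_mul_conj_curve {n : ℕ} (a : QB) (ha : (a : ℂ).im = 0) (c : Fin n → QB)
    (hc : ∀ k, (c k : ℂ).im = 0) (b : Polynomial QB) (x : Fin (n + 1) → ℝ) :
    (ev (C a : MvPolynomial (Fin (n + 1)) QB) x *
      (starRingEnd ℂ) (ev (curveForm c b) x)).im =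
      - ((a : ℂ).re * (Polynomial.aeval ((x (Fin.last n) : ℝ) : ℂ) b).im) := by
  have h1 : ev (C a : MvPolynomial (Fin (n + 1)) QB) x = (a : ℂ) := by
    unfold ev
    rw [MvPolynomial.aeval_C]
    rfl
  rw [h1, Complex.mul_im, Complex.conj_im, Complex.conj_re, ha, im_ev_curveForm c hc]
  ring

theorem lin_zero_not_upper {A : Subfield ℂ} {n : ℕ} (b : MvPolynomial (Fin n) A) :
    ¬ Upper 0 b := by
  intro h
  have := h 0
  simp [ev] at this

theorem lin_zero_not_lower {A : Subfield ℂ} {n : ℕ} (b : MvPolynomial (Fin n) A) :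
    ¬ Lower 0 b := by
  intro h
  have := h 0
  simp [ev] at this

theorem lastLin_succ {n : ℕ} (z : QB) :
    (X (Fin.last (n + 1)) - C z : MvPolynomial (Fin (n + 1 + 1)) QB)
      = rename Fin.succ (X (Fin.last n) - C z) := by
  rw [map_sub, rename_X, rename_C, Fin.succ_last]

theorem rename_eq_lin {A : Subfield ℂ} {n : ℕ} (G : MvPolynomial (Fin n) A) :
    rename Fin.succ G = lin 0 G := by
  unfold lin
  simp

/-- Members of the form `lin M b` which are upper or lower. -/
theorem CS_lin {n : ℕ} {M b : MvPolynomial (Fin (n + 1)) QB} (h : lin M b ∈ CS (n + 1))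
    (hM : M ≠ 0) : ∃ (a : QB) (c : Fin n → QB) (β : Polynomial QB), (a : ℂ).im = 0 ∧
      (∀ k, (c k : ℂ).im = 0) ∧ a ≠ 0 ∧ M = C a ∧ b = curveForm c β := by
  rcases h with ⟨z, _, hz⟩ | ⟨c, β, hc, _, _, hF⟩
  · rw [lastLin_succ, rename_eq_lin] at hz
    exact absurd (cv_lin_inj hz).1 hM
  · rw [curveForm_succ] at hF
    obtain ⟨h1, h2⟩ := cv_lin_inj hF
    refine ⟨c 0, fun k => c k.succ, β, hc 0, fun k => hc _, ?_, h1, h2⟩
    rintro h0
    rw [h0, map_zero] at h1
    exact hM h1

theorem curve_step (hfac : ∀ (n : ℕ) (b : Polynomial QB),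
    (∀ t : ℝ, Polynomial.aeval (t : ℂ) b ≠ 0) →
    (Polynomial.aeval (X (Fin.last n)) b : MvPolynomial (Fin (n + 1)) QB) ∈ Prods (LastLin n))
    (n : ℕ) (h : Red (n + 1) (CS n)) : Red (n + 1 + 1) (CS (n + 1)) := by
  refine ⟨CS n, h, ?_, ?_⟩
  · rintro F (⟨z, hz, rfl⟩ | ⟨c, b, hc, ⟨k, hk⟩, hb, rfl⟩)
    · left
      exact ⟨X (Fin.last n) - C z, mem_prods (Or.inl ⟨z, hz, rfl⟩), lastLin_succ z⟩
    · rw [curveForm_succ]
      by_cases h0 : c 0 = 0
      · left
        refine ⟨curveForm (fun k => c k.succ) b, mem_prods (Or.inr ⟨_, b, fun k => hc _, ?_, hb,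
          rfl⟩), ?_⟩
        · refine Fin.cases (fun h1 => absurd h0 h1) (fun j hj => ⟨j, hj⟩) k hk
        · rw [h0, map_zero, rename_eq_lin]
      · right
        refine ⟨C (c 0), C_mem_prods h0, _, rfl, ?_⟩
        have hr : (c 0 : ℂ).re ≠ 0 := by
          intro h1
          apply h0
          apply Subtype.ext
          exact Complex.ext h1 (hc 0)
        have key := fun x => im_mul_conj_curve (c 0) (hc 0) (fun k => c k.succ)
          (fun k => hc _) b x
        rcases im_sign b hb with hs | hs <;> rcases lt_or_gt_of_ne hr with hr' | hr'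
        · left
          intro x
          rw [key x]
          nlinarith [hs (x (Fin.last n)), mul_pos_of_neg_of_neg hr' (neg_neg_of_pos (hs (x (Fin.last n))))]
        · right
          intro x
          rw [key x]
          nlinarith [mul_pos hr' (hs (x (Fin.last n)))]
        · right
          intro x
          rw [key x]
          nlinarith [mul_pos_of_neg_of_neg hr' (hs (x (Fin.last n)))]
        · left
          intro x
          rw [key x]
          nlinarith [mul_neg_of_pos_of_neg hr' (hs (x (Fin.last n)))]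
  · intro M b M' b' hM hM' hU hL
    have hM0 : M ≠ 0 := by
      rintro rfl
      exact lin_zero_not_upper b hU
    have hM0' : M' ≠ 0 := by
      rintro rfl
      exact lin_zero_not_lower b' hL
    obtain ⟨a, c, β, ha, hc, ha0, rfl, rfl⟩ := CS_lin hM hM0
    obtain ⟨a', c', β', ha', hc', ha0', rfl, rfl⟩ := CS_lin hM' hM0'
    have hid : C a * curveForm c' β' - C a' * curveForm c β
        = curveForm (fun k => a * c' k - a' * c k)
          (Polynomial.C a * β' - Polynomial.C a' * β) := by
      unfold curveForm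
      have h3 : (Polynomial.aeval (X (Fin.last n) : MvPolynomial (Fin (n + 1)) QB))
          (Polynomial.C a * β' - Polynomial.C a' * β) =
          C a * (Polynomial.aeval (X (Fin.last n))) β' -
            C a' * (Polynomial.aeval (X (Fin.last n))) β := by
        rw [map_sub, map_mul, map_mul, Polynomial.aeval_C, Polynomial.aeval_C]
        rfl
      rw [h3]
      have h4 : ∑ k : Fin n, C (a * c' k - a' * c k) * X k.castSucc
          = C a * ∑ k : Fin n, C (c' k) * (X k.castSucc : MvPolynomial (Fin (n + 1)) QB)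
            - C a' * ∑ k : Fin n, C (c k) * X k.castSucc := by
        rw [Finset.mul_sum, Finset.mul_sum, ← Finset.sum_sub_distrib]
        refine Finset.sum_congr rfl fun k _ => ?_
        rw [map_sub, map_mul, map_mul]
        ring
      rw [h4]
      ring
    have him : ∀ t : ℝ, (Polynomial.aeval (t : ℂ)
        (Polynomial.C a * β' - Polynomial.C a' * β)).im ≠ 0 := by
      intro t
      have hu := hU (fun _ => t)
      have hl := hL (fun _ => t)
      rw [im_mul_conj_curve a ha c hc β] at hu
      rw [im_mul_conj_curve a' ha' c' hc' β'] at hl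
      have h5 : (Polynomial.aeval (t : ℂ) (Polynomial.C a * β' - Polynomial.C a' * β)).im
          = (a : ℂ).re * (Polynomial.aeval (t : ℂ) β').im
            - (a' : ℂ).re * (Polynomial.aeval (t : ℂ) β).im := by
        rw [map_sub, map_mul, map_mul, Polynomial.aeval_C, Polynomial.aeval_C]
        have e1 : (algebraMap QB ℂ a) = (a : ℂ) := rfl
        have e2 : (algebraMap QB ℂ a') = (a' : ℂ) := rfl
        rw [e1, e2, Complex.sub_im, Complex.mul_im, Complex.mul_im, ha, ha']
        ring
      rw [h5]
      intro h6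
      set p := (a : ℂ).re
      set q := (a' : ℂ).re
      set u := (Polynomial.aeval (t : ℂ) β).im
      set v := (Polynomial.aeval (t : ℂ) β').im
      have hu' : p * u < 0 := by
        have : 0 < -(p * u) := hu
        linarith
      have hl' : 0 < q * v := by
        have : -(q * v) < 0 := hl
        linarith
      have hp : 0 < p ^ 2 := by
        have : p ≠ 0 := by
          rintro h7
          rw [h7] at hu'
          simp at hu'
        positivity
      nlinarith [mul_pos hp hl', mul_nonneg (sq_nonneg q) (neg_pos.mpr hu').le,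
        congrArg (fun z => p * q * z) h6]
    rw [hid]
    by_cases hz : ∀ k, a * c' k - a' * c k = 0
    · rw [curveForm_zero _ hz]
      refine prods_mono Set.subset_union_left (hfac n _ fun t h7 => him t ?_)
      rw [h7]
      simp
    · push Not at hz
      refine mem_prods (Or.inr ⟨_, _, ?_, hz, him, rfl⟩)
      intro k
      have e3 : ((a * c' k - a' * c k : QB) : ℂ) = (a : ℂ) * (c' k : ℂ) - (a' : ℂ) * (c k : ℂ) := rfl
      rw [e3, Complex.sub_im, Complex.mul_im, Complex.mul_im, ha, ha', hc k, hc' k]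
      ring

theorem curve_base : Red 1 (CS 0) := by
  refine ⟨∅, fun F hF => absurd hF (Set.notMem_empty F), ?_, ?_⟩
  · rintro F (⟨z, hz, rfl⟩ | ⟨c, b, hc, ⟨k, hk⟩, hb, rfl⟩)
    · right
      refine ⟨1, one_mem _, - C z, ?_, ?_⟩
      · unfold lin
        simp [sub_eq_add_neg]
      · have key : ∀ x : Fin 0 → ℝ, (ev (1 : MvPolynomial (Fin 0) QB) x *
            (starRingEnd ℂ) (ev (- C z : MvPolynomial (Fin 0) QB) x)).im = (z : ℂ).im := by
          intro x
          have h1 : ev (- C z : MvPolynomial (Fin 0) QB) x = - (z : ℂ) := by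
            unfold ev
            rw [map_neg, MvPolynomial.aeval_C]
            rfl
          have h2 : ev (1 : MvPolynomial (Fin 0) QB) x = 1 := by
            unfold ev
            rw [map_one]
          rw [h1, h2]
          simp
        rcases lt_or_gt_of_ne hz with h | h
        · right
          intro x
          rw [key x]
          exact h
        · left
          intro x
          rw [key x]
          exact h
    · exact k.elim0
  · rintro M b M' b' (⟨z, hz, h1⟩ | ⟨c, β, hc, ⟨k, hk⟩, hb, h1⟩)
      (⟨z', hz', h1'⟩ | ⟨c', β', hc', ⟨k', hk'⟩, hb', h1'⟩) hU hL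
    · have e : ∀ w : QB, (X (Fin.last 0) - C w : MvPolynomial (Fin 1) QB) = lin 1 (- C w) := by
        intro w
        unfold lin
        simp [sub_eq_add_neg]
      rw [e] at h1 h1'
      obtain ⟨rfl, rfl⟩ := cv_lin_inj h1
      obtain ⟨rfl, rfl⟩ := cv_lin_inj h1'
      have key : ∀ (w : QB) (x : Fin 0 → ℝ), (ev (1 : MvPolynomial (Fin 0) QB) x *
          (starRingEnd ℂ) (ev (- C w : MvPolynomial (Fin 0) QB) x)).im = (w : ℂ).im := by
        intro w x
        have h1 : ev (- C w : MvPolynomial (Fin 0) QB) x = - (w : ℂ) := by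
          unfold ev
          rw [map_neg, MvPolynomial.aeval_C]
          rfl
        have h2 : ev (1 : MvPolynomial (Fin 0) QB) x = 1 := by
          unfold ev
          rw [map_one]
        rw [h1, h2]
        simp
      have hu := hU 0
      have hl := hL 0
      rw [key] at hu hl
      have e2 : (1 * (- C z') - 1 * (- C z) : MvPolynomial (Fin 0) QB) = C (z - z') := by
        rw [map_sub]
        ring
      rw [e2]
      refine C_mem_prods ?_
      intro h3
      have h4 : z = z' := sub_eq_zero.mp h3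
      rw [h4] at hu
      exact absurd hu (not_lt.mpr hl.le)
    · exact k'.elim0
    all_goals exact k.elim0

theorem curve_of (hfac : ∀ (n : ℕ) (b : Polynomial QB),
    (∀ t : ℝ, Polynomial.aeval (t : ℂ) b ≠ 0) →
    (Polynomial.aeval (X (Fin.last n)) b : MvPolynomial (Fin (n + 1)) QB) ∈ Prods (LastLin n))
    (n : ℕ) : ∃ S : Set (MvPolynomial (Fin (n + 1)) QB), Red (n + 1) S ∧
    CurveFam n ⊆ (Prods S : Set (MvPolynomial (Fin (n + 1)) QB)) := by
  refine ⟨CS n, ?_, ?_⟩
  · induction n with
    | zero => exact curve_base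
    | succ n ih => exact curve_step hfac n ih
  · rintro F ⟨c, b, hc, hb, rfl⟩
    by_cases hz : ∀ k, c k = 0
    · rw [curveForm_zero _ hz]
      refine prods_mono Set.subset_union_left (hfac n _ fun t h7 => ?_)
      rcases hb with hb | ⟨_, hb⟩
      · apply hb t
        rw [h7]
        simp
      · exact hb t h7
    · push Not at hz
      rcases hb with hb | ⟨hb0, _⟩
      · exact mem_prods (Or.inr ⟨c, b, hc, hz, hb, rfl⟩)
      · obtain ⟨k, hk⟩ := hz
        exact absurd (hb0 k) hk

theorem curve (n : ℕ) : ∃ S : Set (MvPolynomial (Fin (n + 1)) QB), Red (n + 1) S ∧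
    CurveFam n ⊆ (Prods S : Set (MvPolynomial (Fin (n + 1)) QB)) := curve_of fac n

end LRP
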