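import Pool.Agent.LRP.Main
import Pool.Agent.Helper23.PeriodProof

/-!
# Every algebraic multiple of `pi^n` is the value of a linearly reducible integral
-/

set_option autoImplicit false

namespace LRP

open MeasureTheory

/-- The coordinate family `x_k - z`, `z` algebraic and not real. -/
def CoordLin (n : ℕ) : Set (MvPolynomial (Fin n) QB) :=
  {F | ∃ (k : Fin n) (z : QB), (z : ℂ).im ≠ 0 ∧ F = MvPolynomial.X k - MvPolynomial.C z}

theorem lin_inj {A : Subfield ℂ} {n : ℕ} {M b M' b' : MvPolynomial (Fin n) A}
    (h : lin M b = lin M' b') : M = M' ∧ b = b' := by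
  have h1 := congrArg (MvPolynomial.finSuccEquiv A n) h
  have e : ∀ M b : MvPolynomial (Fin n) A, MvPolynomial.finSuccEquiv A n (lin M b) =
      Polynomial.C M * Polynomial.X + Polynomial.C b := by
    intro M b
    unfold lin
    have er : ∀ p : MvPolynomial (Fin n) A,
        MvPolynomial.finSuccEquiv A n (MvPolynomial.rename Fin.succ p) = Polynomial.C p := by
      intro p
      induction p using MvPolynomial.induction_on with
      | C a =>
        rw [MvPolynomial.rename_C, MvPolynomial.finSuccEquiv_apply]
        simp
      | add p q hp hq => rw [map_add, map_add, hp, hq, Polynomial.C_add]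
      | mul_X p i hp =>
        rw [map_mul, map_mul, hp, MvPolynomial.rename_X, MvPolynomial.finSuccEquiv_X_succ,
          Polynomial.C_mul]
    rw [map_add, map_mul, er, er, MvPolynomial.finSuccEquiv_X_zero]
  rw [e, e] at h1
  constructor
  · have := congrArg (fun p => Polynomial.coeff p 1) h1
    simpa using this
  · have := congrArg (fun p => Polynomial.coeff p 0) h1
    simpa using this

theorem red_coord (n : ℕ) : Red n (CoordLin n) := by
  induction n with
  | zero =>
    rintro F ⟨k, -⟩
    exact k.elim0
  | succ n ih =>
    have e0 : ∀ z : QB, (MvPolynomial.X 0 - MvPolynomial.C z : MvPolynomial (Fin (n + 1)) QB) =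
        lin 1 (MvPolynomial.C (-z)) := by
      intro z
      unfold lin
      rw [map_one, one_mul, MvPolynomial.rename_C, map_neg, sub_eq_add_neg]
    have es : ∀ (k : Fin n) (z : QB),
        (MvPolynomial.X k.succ - MvPolynomial.C z : MvPolynomial (Fin (n + 1)) QB) =
        MvPolynomial.rename Fin.succ (MvPolynomial.X k - MvPolynomial.C z) := by
      intro k z
      rw [map_sub, MvPolynomial.rename_X, MvPolynomial.rename_C]
    have es' : ∀ G : MvPolynomial (Fin n) QB, MvPolynomial.rename Fin.succ G = lin 0 G := by
      intro G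
      unfold lin
      rw [map_zero, zero_mul, zero_add]
    have him : ∀ (z : QB) (x : Fin n → ℝ),
        (ev (1 : MvPolynomial (Fin n) QB) x *
          (starRingEnd ℂ) (ev (MvPolynomial.C (-z) : MvPolynomial (Fin n) QB) x)).im =
        (z : ℂ).im := by
      intro z x
      rw [ev_one, ev_C, one_mul]
      simp
    refine ⟨CoordLin n, ih, ?_, ?_⟩
    · rintro F ⟨k, z, hz, rfl⟩
      refine Fin.cases ?_ (fun k => ?_) k
      · right
        refine ⟨1, one_mem _, MvPolynomial.C (-z), e0 z, ?_⟩
        rcases lt_or_gt_of_ne hz with h | h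
        · right
          intro x
          rw [him]
          exact h
        · left
          intro x
          rw [him]
          exact h
      · left
        exact ⟨MvPolynomial.X k - MvPolynomial.C z,
          Submonoid.subset_closure (Or.inl ⟨k, z, hz, rfl⟩), es k z⟩
    · have key : ∀ M b : MvPolynomial (Fin n) QB, lin M b ∈ CoordLin (n + 1) →
          (∃ z : QB, (z : ℂ).im ≠ 0 ∧ M = 1 ∧ b = MvPolynomial.C (-z)) ∨ M = 0 := by
        rintro M b ⟨k, z, hz, h⟩
        revert h
        refine Fin.cases ?_ (fun k => ?_) k
        · intro h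
          rw [e0] at h
          exact Or.inl ⟨z, hz, (lin_inj h).1, (lin_inj h).2⟩
        · intro h
          rw [es, es'] at h
          exact Or.inr (lin_inj h).1
      intro M b M' b' hM hM' hU hL
      rcases key M b hM with ⟨z, hz, rfl, rfl⟩ | rfl
      · rcases key M' b' hM' with ⟨z', hz', rfl, rfl⟩ | rfl
        · have h1 : 0 < (z : ℂ).im := by
            have := hU 0
            rwa [him] at this
          have h2 : (z' : ℂ).im < 0 := by
            have := hL 0
            rwa [him] at this
          apply Submonoid.subset_closure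
          right
          refine ⟨z - z', ?_, ?_⟩
          · intro h
            have h3 : z = z' := sub_eq_zero.mp h
            rw [h3] at h1
            linarith
          · rw [one_mul, one_mul, ← map_sub]
            congr 1
            ring
        · exfalso
          have := hL 0
          rw [ev_eq, map_zero, zero_mul] at this
          simp at this
      · exfalso
        have := hU 0
        rw [ev_eq, map_zero, zero_mul] at this
        simp at this

theorem exact (n : ℕ) (a : QB) : IsLRPeriodOf n ((a : ℂ) * (Real.pi : ℂ) ^ n) := by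
  have hI : Complex.I ∈ QB := Pool.Agent.Helper23.PeriodProof.I_mem_CA
  let I : QB := ⟨Complex.I, hI⟩
  have hI1 : ((I : QB) : ℂ) = Complex.I := rfl
  let q : Fin n → MvPolynomial (Fin n) QB := fun k =>
    (MvPolynomial.X k - MvPolynomial.C I) * (MvPolynomial.X k - MvPolynomial.C (-I))
  have hq : ∀ k, q k ∈ Prods (CoordLin n) := by
    intro k
    refine mul_mem (Submonoid.subset_closure (Or.inl ⟨k, I, ?_, rfl⟩))
      (Submonoid.subset_closure (Or.inl ⟨k, -I, ?_, rfl⟩))
    · rw [hI1]
      simp
    · rw [Subfield.coe_neg, hI1]
      simp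
  have hev : ∀ x : Fin n → ℝ, ev (MvPolynomial.C a) x / ev (∏ k, q k) x =
      (a : ℂ) * ∏ k, (((1 + (x k) ^ 2)⁻¹ : ℝ) : ℂ) := by
    intro x
    rw [ev_C, ev_prod, div_eq_mul_inv, ← Finset.prod_inv_distrib]
    congr 1
    apply Finset.prod_congr rfl
    intro k _
    have e1 : ev (q k) x = ((1 + (x k) ^ 2 : ℝ) : ℂ) := by
      simp only [q]
      rw [ev_mul, ev_sub, ev_sub, ev_C, ev_C, Subfield.coe_neg, hI1]
      have e2 : ev (MvPolynomial.X k : MvPolynomial (Fin n) QB) x = (x k : ℂ) := by
        unfold ev
        rw [MvPolynomial.aeval_X]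
      rw [e2]
      push_cast
      ring_nf
      rw [Complex.I_sq]
      ring
    rw [e1, Complex.ofReal_inv]
  refine ⟨CoordLin n, red_coord n, MvPolynomial.C a, ∏ k, q k, prod_mem fun k _ => hq k, ?_, ?_⟩
  · simp_rw [hev]
    apply Integrable.const_mul
    exact Integrable.fintype_prod (f := fun _ : Fin n => fun t : ℝ => (((1 + t ^ 2)⁻¹ : ℝ) : ℂ))
      (fun _ => integrable_inv_one_add_sq.ofReal)
  · simp_rw [hev]
    rw [integral_const_mul]
    congr 1
    have := integral_fintype_prod_volume_eq_prod (ι := Fin n) (E := fun _ => ℝ)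
      (fun _ => fun t : ℝ => (((1 + t ^ 2)⁻¹ : ℝ) : ℂ))
    rw [this]
    simp only [integral_complex_ofReal, integral_univ_inv_one_add_sq]
    simp

end LRP
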