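import Pool.Agent.LRP.Fac

/-!
# Two variables: every family `M(t) x + b(t)` with roots never real is linearly reducible
-/

set_option autoImplicit false

open MvPolynomial

namespace LRP

section general
variable {A : Subfield ℂ} {n : ℕ}

theorem tw_cont (P : MvPolynomial (Fin n) A) : Continuous fun x : Fin n → ℝ => ev P x := by
  unfold ev
  induction P using MvPolynomial.induction_on with
  | C a => simpa using continuous_const
  | add p q hp hq =>
    simp only [map_add]
    exact hp.add hq
  | mul_X p i hp =>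
    simp only [map_mul, MvPolynomial.aeval_X]
    exact hp.mul (Complex.continuous_ofReal.comp (continuous_apply i))

theorem tw_cross {m c m' c' : ℂ} (h : 0 < (m * (starRingEnd ℂ) c).im)
    (h' : (m' * (starRingEnd ℂ) c').im < 0) : m * c' - m' * c ≠ 0 := by
  intro h0
  have h1 : m * c' = m' * c := sub_eq_zero.1 h0
  have hm : m ≠ 0 := by
    rintro rfl
    simp at h
  have hm' : m' ≠ 0 := by
    rintro rfl
    simp at h'
  have e1 : (starRingEnd ℂ) m * (starRingEnd ℂ) c' = (starRingEnd ℂ) m' * (starRingEnd ℂ) c := by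
    rw [← map_mul, ← map_mul, h1]
  have e2 : ((Complex.normSq m' : ℝ) : ℂ) * (m * (starRingEnd ℂ) c) =
      ((Complex.normSq m : ℝ) : ℂ) * (m' * (starRingEnd ℂ) c') := by
    rw [← Complex.mul_conj, ← Complex.mul_conj]
    linear_combination (-(m * m')) * e1
  have e3 := congrArg Complex.im e2
  rw [Complex.im_ofReal_mul, Complex.im_ofReal_mul] at e3
  have p1 : 0 < Complex.normSq m' := Complex.normSq_pos.2 hm'
  have p2 : 0 < Complex.normSq m := Complex.normSq_pos.2 hm
  nlinarith [mul_pos p1 h, mul_neg_of_pos_of_neg p2 h']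

theorem tw_crossP (M b M' b' : MvPolynomial (Fin n) A) (h : Upper M b) (h' : Lower M' b')
    (x : Fin n → ℝ) : ev (M * b' - M' * b) x ≠ 0 := by
  have := tw_cross (h x) (h' x)
  unfold ev at this ⊢
  rwa [map_sub, map_mul, map_mul]

theorem tw_side [Nonempty (Fin n → ℝ)] (M b : MvPolynomial (Fin n) A)
    (h : ∀ x : Fin n → ℝ, (ev M x * (starRingEnd ℂ) (ev b x)).im ≠ 0) :
    Upper M b ∨ Lower M b := by
  by_contra hcon
  rw [not_or] at hcon
  obtain ⟨h1, h2⟩ := hcon
  unfold Upper at h1
  unfold Lower at h2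
  push Not at h1 h2
  obtain ⟨x, hx⟩ := h1
  obtain ⟨y, hy⟩ := h2
  have hc : Continuous fun x : Fin n → ℝ => (ev M x * (starRingEnd ℂ) (ev b x)).im :=
    Complex.continuous_im.comp ((tw_cont M).mul (Complex.continuous_conj.comp (tw_cont b)))
  obtain ⟨z, hz⟩ := mem_range_of_exists_le_of_exists_ge hc ⟨x, hx⟩ ⟨y, hy⟩
  exact h z hz

theorem tw_one (G : MvPolynomial (Fin 1) A) :
    ∃ b : Polynomial A, G = Polynomial.aeval (MvPolynomial.X (Fin.last 0)) b := by
  induction G using MvPolynomial.induction_on with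
  | C a => exact ⟨Polynomial.C a, by rw [Polynomial.aeval_C]; rfl⟩
  | add p q hp hq =>
    obtain ⟨b, rfl⟩ := hp
    obtain ⟨c, rfl⟩ := hq
    exact ⟨b + c, by rw [map_add]⟩
  | mul_X p i hp =>
    obtain ⟨b, rfl⟩ := hp
    refine ⟨b * Polynomial.X, ?_⟩
    rw [map_mul, Polynomial.aeval_X, Subsingleton.elim i (Fin.last 0)]

end general

/-- a polynomial in one variable without real zero -/
theorem tw_fac (G : MvPolynomial (Fin 1) QB) (hG : ∀ x : Fin 1 → ℝ, ev G x ≠ 0) :
    G ∈ Prods (LastLin 0) := by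
  obtain ⟨b, rfl⟩ := tw_one G
  refine fac 0 b fun t => ?_
  have h1 := hG fun _ => t
  unfold ev at h1
  rw [← Polynomial.aeval_algHom_apply, MvPolynomial.aeval_X] at h1
  exact h1

theorem tw_red1 : Red 1 (LastLin 0) := by
  refine ⟨∅, fun F hF => hF.elim, ?_, ?_⟩
  · rintro F ⟨z, hz, rfl⟩
    right
    refine ⟨1, Submonoid.one_mem _, MvPolynomial.C (-z), ?_, ?_⟩
    · unfold lin
      rw [map_one, one_mul, MvPolynomial.rename_C, map_neg]
      exact sub_eq_add_neg _ _
    · have h1 : ∀ x : Fin 0 → ℝ, (ev (1 : MvPolynomial (Fin 0) QB) x *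
          (starRingEnd ℂ) (ev (MvPolynomial.C (-z) : MvPolynomial (Fin 0) QB) x)).im =
          (z : ℂ).im := by
        intro x
        unfold ev
        rw [map_one, one_mul, MvPolynomial.aeval_C]
        have : (algebraMap QB ℂ) (-z) = -(z : ℂ) := by
          rw [map_neg]
          rfl
        rw [this]
        simp
      rcases lt_or_gt_of_ne hz with h | h
      · right
        intro x
        rw [h1]
        exact h
      · left
        intro x
        rw [h1]
        exact h
  · intro M b M' b' _ _ h h'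
    have h1 := tw_crossP M b M' b' h h' (fun _ => 0)
    refine Submonoid.subset_closure (Or.inr ?_)
    refine ⟨MvPolynomial.coeff 0 (M * b' - M' * b), ?_, MvPolynomial.eq_C_of_isEmpty _⟩
    intro h2
    apply h1
    rw [MvPolynomial.eq_C_of_isEmpty (M * b' - M' * b), h2]
    unfold ev
    rw [map_zero, map_zero]

/-- TWO -/
theorem two : Red 2 TwoFam := by
  refine ⟨LastLin 0, tw_red1, ?_, ?_⟩
  · rintro F ⟨M, b, rfl, h⟩
    right
    refine ⟨M, tw_fac M fun x hx => h x ?_, b, rfl, tw_side M b h⟩
    rw [hx, zero_mul, Complex.zero_im]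
  · intro M b M' b' _ _ h h'
    exact tw_fac _ (tw_crossP M b M' b' h h')

end LRP
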