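import Pool.Agent.LRP.AsmCore
import Pool.Agent.LRP.Main
import Pool.Agent.LRP.Curve
import Pool.Agent.LRP.Two
import Pool.Agent.LRP.Exact

/-!
# Linearly reducible periods: the assembly
-/

set_option autoImplicit false

open MeasureTheory

namespace LRP

theorem I_mem_QB : Complex.I ∈ QB :=
  Pool.Agent.Helper23.PeriodProof.I_mem_CA

theorem value (n : ℕ) (v : ℂ) (hv : IsLRPeriodOf n v) : ∃ a : QB, v = a * (Real.pi : ℂ) ^ n := by
  obtain ⟨S, hS, P, D, hD, hint, rfl⟩ := hv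
  obtain ⟨a, ha, h⟩ := main QB I_mem_QB n S hS P D hD hint
  exact ⟨⟨a, ha⟩, h⟩

theorem asm :
    (∀ (n : ℕ) (v : ℂ), (IsLRPeriodOf n v ↔ ∃ a : QB, v = a * (Real.pi : ℂ) ^ n) ∧
      (IsLRPeriodOf n v → v ≠ 0 → n ≠ 0 → Transcendental ℚ v)) ∧
    (∀ n : ℕ, ∃ S : Set (MvPolynomial (Fin (n + 1)) QB), Red (n + 1) S ∧
      CurveFam n ⊆ (Prods S : Set (MvPolynomial (Fin (n + 1)) QB))) ∧
    Red 2 TwoFam ∧
    Algebra.adjoin QB ({v : ℂ | ∃ n : ℕ, IsLRPeriodOf n v} ∪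
      {v : ℂ | ∃ w : ℝ, v = (w : ℂ) ∧ (Pool.Agent.Helper23.PeriodDefs.IsRidgeIntegral w ∨
        Pool.Agent.Helper23.PeriodDefs.IsQuadricIntegral w ∨
        Pool.Agent.Helper23.PeriodDefs.IsEllipsoidIntegral w)}) =
      Algebra.adjoin QB {(Real.pi : ℂ)} ∧
    (Real.pi : ℂ)⁻¹ ∉ Algebra.adjoin QB {(Real.pi : ℂ)} ∧
    Pool.Agent.Helper23.PeriodDefs.periodRing =
      Algebra.adjoin Pool.Agent.Helper23.PeriodDefs.RealAlg {Real.pi} ∧
    (Real.pi)⁻¹ ∉ Pool.Agent.Helper23.PeriodDefs.periodRing := by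
  refine ⟨fun n v => ⟨⟨value n v, ?_⟩, fun hv h0 hn => ?_⟩, curve, two, ring_eq value,
    inv_pi_not_mem, Pool.Agent.Helper23.PeriodProof.main⟩
  · rintro ⟨a, rfl⟩
    exact exact n a
  · obtain ⟨a, ha⟩ := value n v hv
    exact transcendental_of_eq ha h0 hn

end LRP
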