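import Pool.Agent.LRP.Defs
import Pool.Agent.Helper23.PeriodProof

/-!
# Linearly reducible periods: the ring of all values is `QB[π]`
-/

set_option autoImplicit false

open MeasureTheory Polynomial

namespace LRP

open Pool.Agent.Helper23 Pool.Agent.Helper23.PeriodDefs

theorem mem_QB {x : ℂ} : x ∈ QB ↔ IsAlgebraic ℚ x :=
  PeriodProof.mem_CA

instance isAlgQB : Algebra.IsAlgebraic ℚ QB :=
  algebraicClosure.isAlgebraic ℚ ℂ

theorem transcendental_pi_complex : Transcendental ℚ (Real.pi : ℂ) := by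
  intro h
  exact PiT.transcendental_pi
    ((isAlgebraic_algebraMap_iff (R := ℚ) (S := ℝ) (A := ℂ) (algebraMap ℝ ℂ).injective).mp h)

theorem inv_pi_not_mem : (Real.pi : ℂ)⁻¹ ∉ Algebra.adjoin QB {(Real.pi : ℂ)} := by
  intro h
  rw [Algebra.adjoin_singleton_eq_range_aeval] at h
  obtain ⟨p, hp⟩ := h
  have hp' : aeval (Real.pi : ℂ) p = (Real.pi : ℂ)⁻¹ := hp
  have hpi : (Real.pi : ℂ) ≠ 0 := Complex.ofReal_ne_zero.mpr Real.pi_ne_zero
  have h1 : IsAlgebraic QB (Real.pi : ℂ) := by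
    refine ⟨X * p - 1, ?_, ?_⟩
    · intro h0
      have := congrArg (fun f => f.coeff 0) h0
      simp at this
    · rw [map_sub, map_mul, aeval_X, hp', map_one, mul_inv_cancel₀ hpi, sub_self]
  exact transcendental_pi_complex (h1.restrictScalars ℚ)

/-- a real number in `QB[π]` is in `K[π]`, `K` the field of real algebraic numbers -/
theorem real_mem {w : ℝ} (hw : (w : ℂ) ∈ Algebra.adjoin QB {(Real.pi : ℂ)}) :
    w ∈ Algebra.adjoin RealAlg ({Real.pi} : Set ℝ) := by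
  rw [Algebra.adjoin_singleton_eq_range_aeval] at hw
  obtain ⟨p, hp⟩ := hw
  have hp' : aeval (Real.pi : ℂ) p = (w : ℂ) := hp
  have hre : ∀ a : QB, IsAlgebraic ℚ ((a : ℂ)).re := by
    intro a
    have ha : IsAlgebraic ℚ (a : ℂ) := mem_QB.mp a.2
    have hc : IsAlgebraic ℚ ((starRingEnd ℂ) (a : ℂ)) := by
      exact IsAlgebraic.algHom ((AlgEquiv.restrictScalars ℚ Complex.conjAe : ℂ ≃ₐ[ℚ] ℂ) : ℂ →ₐ[ℚ] ℂ)
        ha
    have h2 : (((a : ℂ)).re : ℂ) = ((a : ℂ) + (starRingEnd ℂ) (a : ℂ)) / 2 := by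
      rw [Complex.add_conj]
      push_cast
      ring
    have h3 : IsAlgebraic ℚ ((((a : ℂ)).re : ℝ) : ℂ) := by
      rw [h2, div_eq_mul_inv]
      refine (ha.add hc).mul ?_
      have := isAlgebraic_algebraMap (R := ℚ) (A := ℂ) (2⁻¹)
      simpa using this
    exact (isAlgebraic_algebraMap_iff (R := ℚ) (S := ℝ) (A := ℂ)
      (algebraMap ℝ ℂ).injective).mp h3
  have hw2 : w = ∑ i ∈ Finset.range (p.natDegree + 1), ((p.coeff i : ℂ)).re * Real.pi ^ i := by
    have h4 := congrArg Complex.re hp'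
    rw [aeval_eq_sum_range, Complex.re_sum, Complex.ofReal_re] at h4
    rw [← h4]
    refine Finset.sum_congr rfl fun i _ => ?_
    rw [Algebra.smul_def]
    change (((p.coeff i : QB) : ℂ) * (Real.pi : ℂ) ^ i).re = _
    rw [← Complex.ofReal_pow, Complex.re_mul_ofReal]
  rw [hw2]
  refine Subalgebra.sum_mem _ fun i _ => ?_
  have hpi : Real.pi ∈ Algebra.adjoin RealAlg ({Real.pi} : Set ℝ) :=
    Algebra.subset_adjoin rfl
  refine Subalgebra.mul_mem _ ?_ (Subalgebra.pow_mem _ hpi i)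
  have hm : ((p.coeff i : ℂ)).re ∈ RealAlg := mem_algebraicClosure_iff.mpr (hre (p.coeff i))
  exact Subalgebra.algebraMap_mem _ (⟨_, hm⟩ : RealAlg)

/-- `a π ^ n` is zero or transcendental, if `a` is algebraic and `n` is not zero -/
theorem transcendental_of_eq {n : ℕ} {v : ℂ} {a : QB} (h : v = a * (Real.pi : ℂ) ^ n)
    (hv : v ≠ 0) (hn : n ≠ 0) : Transcendental ℚ v := by
  intro hal
  have ha : IsAlgebraic ℚ (a : ℂ) := mem_QB.mp a.2
  have ha0 : (a : ℂ) ≠ 0 := by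
    intro h0
    rw [h0, zero_mul] at h
    exact hv h
  have h1 : (Real.pi : ℂ) ^ n = (a : ℂ)⁻¹ * v := by
    rw [h, inv_mul_cancel_left₀ ha0]
  have h2 : IsAlgebraic ℚ ((Real.pi : ℂ) ^ n) := by
    rw [h1]
    exact ha.inv.mul hal
  exact transcendental_pi_complex (IsAlgebraic.of_pow (Nat.pos_of_ne_zero hn) h2)

/-- the assembly, with the value theorem as a hypothesis -/
theorem ring_eq
    (hmain : ∀ (n : ℕ) (v : ℂ), IsLRPeriodOf n v → ∃ a : QB, v = a * (Real.pi : ℂ) ^ n) :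
    Algebra.adjoin QB ({v : ℂ | ∃ n : ℕ, IsLRPeriodOf n v} ∪
      {v : ℂ | ∃ w : ℝ, v = (w : ℂ) ∧ (IsRidgeIntegral w ∨ IsQuadricIntegral w ∨
        IsEllipsoidIntegral w)}) = Algebra.adjoin QB {(Real.pi : ℂ)} := by
  have hpi : (Real.pi : ℂ) ∈ Algebra.adjoin QB ({(Real.pi : ℂ)} : Set ℂ) :=
    Algebra.subset_adjoin rfl
  apply le_antisymm
  · apply Algebra.adjoin_le
    rintro v (⟨n, hv⟩ | ⟨w, rfl, hw⟩)
    · obtain ⟨a, rfl⟩ := hmain n v hv
      exact Subalgebra.mul_mem _ (Subalgebra.algebraMap_mem _ a) (Subalgebra.pow_mem _ hpi n)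
    · obtain ⟨a, ha, e, rfl⟩ := PeriodProof.value hw
      have ha' : (a : ℂ) ∈ QB := PeriodProof.ofReal_mem_CA.mpr ha
      rw [Complex.ofReal_mul, Complex.ofReal_pow]
      exact Subalgebra.mul_mem _ (Subalgebra.algebraMap_mem _ (⟨(a : ℂ), ha'⟩ : QB))
        (Subalgebra.pow_mem _ hpi e)
  · apply Algebra.adjoin_mono
    rintro _ rfl
    exact Or.inr ⟨Real.pi, rfl, Or.inl PeriodProof.pi_ridge⟩

end LRP
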